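import Pool.Agent.Y262.EX.Stm

/-!
Existence of the reflection.
-/

set_option autoImplicit false

open Set Filter Topology MeasureTheory
open scoped ContDiff ComplexConjugate Real

noncomputable section

namespace Pool.Agent.Y658.EX

open Pool.Agent.Y262.EG Pool.Agent.Y262.EX

/-- **SIGEX** -/
theorem sigEx : StSigEx := by
  intro G M _ _ Ω a φ pr hp h1 h2 h3
  have hs : ∀ x : M, ∃ z ∈ Ω, pr z = x := fun x => by
    have hx : x ∈ pr '' Ω := by rw [hp.surj]; trivial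
    exact hx
  choose g hg1 hg2 using hs
  refine ⟨fun x => pr (conj (g x)), h1, h2, fun z hz => ?_⟩
  obtain ⟨γ, hγ⟩ := (hp.rel (g (pr z)) (hg1 _) z hz).1 (hg2 _)
  obtain ⟨γ', h4⟩ := h3 γ
  refine (hp.rel _ (h1 _ (hg1 _)) _ (h1 z hz)).2 ⟨γ', ?_⟩
  rw [← h4 _ (hg1 _), hγ]

end Pool.Agent.Y658.EX
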