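import Pool.Agent.Y658.EX.B2

set_option autoImplicit false

/-!
The additive category of generic matrices.
-/

namespace Pool.Agent.Y658.EX

open CategoryTheory Pool.Agent.H494R3.EX

/-- objects of the category -/
structure Ob (M : Type) where
  m : M

variable [Bs] {M : Type} [AddCommMonoid M]

noncomputable def DS (m l : M) : AddSubgroup (Mor m l) where
  carrier := {a | D a}
  add_mem' := D.add
  zero_mem' := D.zero m l
  neg_mem' := D.neg

noncomputable instance catOb : Category.{0} (Ob M) where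
  Hom x y := DS x.m y.m
  id x := ⟨one x.m, D.one _⟩
  comp f g := ⟨cp g.1 f.1, D.comp g.2 f.2⟩
  id_comp _ := Subtype.ext (cp_one _)
  comp_id _ := Subtype.ext (one_cp _)
  assoc _ _ _ := Subtype.ext (cp_assoc _ _ _).symm

noncomputable instance preOb : Preadditive (Ob M) where
  homGroup x y := inferInstanceAs (AddCommGroup (DS x.m y.m))
  add_comp _ _ _ f f' g := Subtype.ext (cp_add g.1 f.1 f'.1)
  comp_add _ _ _ f g g' := Subtype.ext (add_cp g.1 g'.1 f.1)

/-- construct a morphism -/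
def hm {x y : Ob M} (a : Mor x.m y.m) (h : D a) : x ⟶ y := ⟨a, h⟩

theorem hm_ext {x y : Ob M} {f g : x ⟶ y} (h : f.1 = g.1) : f = g := Subtype.ext h

theorem comp_val {x y z : Ob M} (f : x ⟶ y) (g : y ⟶ z) : (f ≫ g).1 = cp g.1 f.1 := rfl
theorem id_val (x : Ob M) : (𝟙 x : x ⟶ x).1 = one x.m := rfl
theorem add_val {x y : Ob M} (f g : x ⟶ y) : (f + g).1 = f.1 + g.1 := rfl
theorem zero_val (x y : Ob M) : (0 : x ⟶ y).1 = 0 := rfl
theorem neg_val {x y : Ob M} (f : x ⟶ y) : (-f).1 = -f.1 := rfl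
theorem sub_val {x y : Ob M} (f g : x ⟶ y) : (f - g).1 = f.1 - g.1 := rfl

/-! ### the generic square matrices are invertible -/

theorem gen_inv (m n : M) (w : M →+ ℕ) :
    ∃ B : Matrix (Fin (w m) ⊕ Fin (w n)) (Fin (w (m + n))) (Fl M),
      Matrix.fromCols (gx1 m n (m + n) w) (gx2 m n (m + n) w) * B = 1 ∧
      B * Matrix.fromCols (gx1 m n (m + n) w) (gx2 m n (m + n) w) = 1 := by
  have hcard : w (m + n) = w m + w n := map_add w m n
  let σ : Fin (w (m + n)) ≃ Fin (w m) ⊕ Fin (w n) := (finCongr hcard).trans finSumFinEquiv.symm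
  apply inv_rect σ
  let P : Matrix (Fin (w (m + n))) (Fin (w m) ⊕ Fin (w n)) (Pl M) :=
    Matrix.of fun p q => MvPolynomial.X
      (m, n, p.1, Sum.map (fun i : Fin (w m) => i.1) (fun i : Fin (w n) => i.1) q)
  let v : Vr M → Bs.K := fun x => match x with
    | (_, _, p, Sum.inl q) => if p = q then 1 else 0
    | (_, _, p, Sum.inr q) => if p = w m + q then 1 else 0
  have h1 : Matrix.fromCols (gx1 m n (m + n) w) (gx2 m n (m + n) w) =
      P.map (algebraMap (Pl M) (Fl M)) := by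
    ext i (j | j) <;> rfl
  have h2 : (P.submatrix id σ).det ≠ 0 := by
    intro h0
    have h3 := congrArg (MvPolynomial.eval₂Hom (RingHom.id Bs.K) v) h0
    rw [RingHom.map_det, map_zero] at h3
    have h4 : (MvPolynomial.eval₂Hom (RingHom.id Bs.K) v).mapMatrix (P.submatrix id σ) = 1 := by
      ext i j
      have hσ : ∃ k, k = σ j := ⟨_, rfl⟩
      obtain ⟨k, hk⟩ := hσ
      have hj : j = σ.symm k := by rw [hk]; simp
      rw [RingHom.mapMatrix_apply, Matrix.map_apply, Matrix.submatrix_apply, ← hk]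
      rw [Matrix.one_apply, hj]
      rcases k with k | k
      · have e1 : (σ.symm (Sum.inl k)).1 = k.1 := by simp [σ]
        have e2 : (i = σ.symm (Sum.inl k)) ↔ i.1 = k.1 := by rw [Fin.ext_iff, e1]
        simp only [P, Matrix.of_apply, id, Sum.map_inl, e2]
        rw [MvPolynomial.coe_eval₂Hom, MvPolynomial.eval₂_X]
      · have e1 : (σ.symm (Sum.inr k)).1 = w m + k.1 := by simp [σ]
        have e2 : (i = σ.symm (Sum.inr k)) ↔ i.1 = w m + k.1 := by rw [Fin.ext_iff, e1]
        simp only [P, Matrix.of_apply, id, Sum.map_inr, e2]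
        rw [MvPolynomial.coe_eval₂Hom, MvPolynomial.eval₂_X]
    rw [h4, Matrix.det_one] at h3
    exact one_ne_zero h3
  rw [isUnit_iff_ne_zero, h1]
  intro h0
  apply h2
  apply IsFractionRing.injective (Pl M) (Fl M)
  rw [map_zero, RingHom.map_det]
  exact h0

noncomputable def gB (m n : M) (w : M →+ ℕ) :
    Matrix (Fin (w m) ⊕ Fin (w n)) (Fin (w (m + n))) (Fl M) := (gen_inv m n w).choose

noncomputable def gy1 (m n : M) : Mor (m + n) m := fun w => (gB m n w).submatrix Sum.inl id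
noncomputable def gy2 (m n : M) : Mor (m + n) n := fun w => (gB m n w).submatrix Sum.inr id

theorem gpair (m n : M) : IPair (gx1 m n (m + n)) (gx2 m n (m + n)) (gy1 m n) (gy2 m n) := by
  have h : ∀ w, Matrix.fromCols (gx1 m n (m + n) w) (gx2 m n (m + n) w) * gB m n w = 1 ∧
      gB m n w * Matrix.fromCols (gx1 m n (m + n) w) (gx2 m n (m + n) w) = 1 :=
    fun w => (gen_inv m n w).choose_spec
  have hB : ∀ w, gB m n w = Matrix.fromRows (gy1 m n w) (gy2 m n w) := by
    intro w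
    ext (i | i) j <;> rfl
  have h1 : ∀ w, gx1 m n (m + n) w * gy1 m n w + gx2 m n (m + n) w * gy2 m n w = 1 := by
    intro w
    have := (h w).1
    rwa [hB, Matrix.fromCols_mul_fromRows] at this
  have h2 : ∀ w, Matrix.fromBlocks (gy1 m n w * gx1 m n (m + n) w) (gy1 m n w * gx2 m n (m + n) w)
      (gy2 m n w * gx1 m n (m + n) w) (gy2 m n w * gx2 m n (m + n) w) =
      Matrix.fromBlocks 1 0 0 1 := by
    intro w
    have := (h w).2
    rwa [hB, Matrix.fromRows_mul_fromCols, ← Matrix.fromBlocks_one] at this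
  refine ⟨?_, ?_, ?_, ?_, ?_⟩
  · funext w; exact (Matrix.fromBlocks_inj.1 (h2 w)).1
  · funext w; exact (Matrix.fromBlocks_inj.1 (h2 w)).2.1
  · funext w; exact (Matrix.fromBlocks_inj.1 (h2 w)).2.2.1
  · funext w; exact (Matrix.fromBlocks_inj.1 (h2 w)).2.2.2
  · funext w; exact h1 w

theorem gbi (m n : M) : ∃ (i₁ : Ob.mk m ⟶ Ob.mk (m + n)) (i₂ : Ob.mk n ⟶ Ob.mk (m + n))
    (o₁ : Ob.mk (m + n) ⟶ Ob.mk m) (o₂ : Ob.mk (m + n) ⟶ Ob.mk n),
      IsBi _ _ _ i₁ i₂ o₁ o₂ := by
  have hp := gpair m n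
  refine ⟨hm _ (D.x1 m n _ rfl), hm _ (D.x2 m n _ rfl),
    hm (gy1 m n) (D.y1 rfl hp (D.x1 m n _ rfl) (D.x2 m n _ rfl)),
    hm (gy2 m n) (D.y2 rfl hp (D.x1 m n _ rfl) (D.x2 m n _ rfl)), ?_, ?_, ?_, ?_, ?_⟩
  · exact Subtype.ext hp.ca
  · exact Subtype.ext hp.da
  · exact Subtype.ext hp.cb
  · exact Subtype.ext hp.db
  · exact Subtype.ext hp.hs

theorem HBOb (x y : Ob M) : ∃ (z : Ob M) (i₁ : x ⟶ z) (i₂ : y ⟶ z) (o₁ : z ⟶ x) (o₂ : z ⟶ y),
    IsBi x y z i₁ i₂ o₁ o₂ := by
  obtain ⟨i₁, i₂, o₁, o₂, h⟩ := gbi x.m y.m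
  exact ⟨_, i₁, i₂, o₁, o₂, h⟩

/-! ### coordinates -/

section
variable {N : ℕ} (e : M ≃+ (Fin N → ℕ))

def wc (i : Fin N) : M →+ ℕ := (Pi.evalAddMonoidHom (fun _ : Fin N => ℕ) i).comp e.toAddMonoidHom

theorem wc_ap (i : Fin N) (x : M) : wc e i x = e x i := rfl

theorem w_eq (w : M →+ ℕ) : w = ∑ i, w (e.symm (Pi.single i 1)) • wc e i := by
  ext x
  rw [AddMonoidHom.finsetSum_apply]
  simp only [AddMonoidHom.nsmul_apply, wc_ap, smul_eq_mul]
  have h1 : x = ∑ i, e x i • e.symm (Pi.single i 1) := by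
    apply e.injective
    rw [map_sum]
    simp only [map_nsmul, AddEquiv.apply_symm_apply]
    ext j
    simp [Finset.sum_apply, Pi.single_apply]
  conv_lhs => rw [h1, map_sum]
  simp only [map_nsmul, smul_eq_mul]
  exact Finset.sum_congr rfl fun i _ => mul_comm _ _

theorem unit_all {m : M} {a : Mor m m} (h : D a) (hc : ∀ i, IsUnit (a (wc e i))) (w : M →+ ℕ) :
    IsUnit (a w) := by
  let S : AddSubmonoid (M →+ ℕ) :=
    { carrier := {w | IsUnit (a w)}
      add_mem' := fun {w₁ w₂} h₁ h₂ => unit_add w₁ w₂ h h₁ h₂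
      zero_mem' := by
        refine ⟨⟨a 0, 1, ?_, ?_⟩, rfl⟩ <;>
        · ext i
          exact absurd i.2 (by simp) }
  have : w ∈ S := by
    rw [w_eq e w]
    exact AddSubmonoid.sum_mem S fun i _ => AddSubmonoid.nsmul_mem S (hc i) _
  exact this

theorem mor_zero_eq {a b : Mor (0 : M) 0} : a = b := by
  funext w
  ext i
  exact absurd i.2 (by simp)

theorem inv_D {m : M} {a : Mor m m} (h : D a) (hu : ∀ w, IsUnit (a w)) :
    ∃ b : Mor m m, D b ∧ cp a b = one m ∧ cp b a = one m := by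
  choose u hu using hu
  have h1 : ∀ w, a w * (u w).inv = 1 := fun w => by rw [← hu w]; exact (u w).val_inv
  have h2 : ∀ w, (u w).inv * a w = 1 := fun w => by rw [← hu w]; exact (u w).inv_val
  have e1 : cp a (fun w => (u w).inv) = one m := funext h1
  have e2 : cp (fun w => (u w).inv) a = one m := funext h2
  refine ⟨fun w => (u w).inv, ?_, e1, e2⟩
  have hp : IPair (m := m) (n := 0) (l := m) a 0 (fun w => (u w).inv) 0 := by
    refine ⟨e2, cp_zero _, zero_cp _, mor_zero_eq, ?_⟩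
    rw [cp_zero, add_zero, e1]
  exact D.y1 (add_zero m) hp h (D.zero _ _)

theorem inv_Ob {x : Ob M} (a : x ⟶ x) (hc : ∀ i, IsUnit (a.1 (wc e i))) : Inv a := by
  obtain ⟨b, hb, h1, h2⟩ := inv_D a.2 (unit_all e a.2 hc)
  exact ⟨⟨b, hb⟩, Subtype.ext h2, Subtype.ext h1⟩

theorem one_by_one {F : Type} [Field F] {k : ℕ} (hk : k = 1) (A : Matrix (Fin k) (Fin k) F) :
    IsUnit A ∨ IsUnit (1 - A) := by
  subst hk
  rw [Matrix.isUnit_iff_isUnit_det, Matrix.isUnit_iff_isUnit_det, Matrix.det_fin_one,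
    Matrix.det_fin_one, isUnit_iff_ne_zero, isUnit_iff_ne_zero]
  by_cases h : A 0 0 = 0
  · right
    simp [h]
  · left; exact h

theorem zero_by_zero {F : Type} [Field F] {k : ℕ} (hk : k = 0) (A : Matrix (Fin k) (Fin k) F) :
    IsUnit A := by
  subst hk
  refine ⟨⟨A, 1, ?_, ?_⟩, rfl⟩ <;>
  · ext i
    exact absurd i.2 (by simp)

theorem loc_atom (i : Fin N) : Loc (Ob.mk (e.symm (Pi.single i 1))) := by
  intro a
  have h0 : ∀ j, j ≠ i → ∀ A : Matrix (Fin (wc e j (e.symm (Pi.single i 1))))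
      (Fin (wc e j (e.symm (Pi.single i 1)))) (Fl M), IsUnit A := by
    intro j hj A
    apply zero_by_zero
    rw [wc_ap, AddEquiv.apply_symm_apply, Pi.single_apply, if_neg hj]
  have h1 := one_by_one (k := wc e i (e.symm (Pi.single i 1)))
    (by rw [wc_ap, AddEquiv.apply_symm_apply, Pi.single_apply, if_pos rfl]) (a.1 (wc e i))
  rcases h1 with h1 | h1
  · left
    apply inv_Ob e
    intro j
    by_cases hj : j = i
    · rw [hj]; exact h1
    · exact h0 j hj _
  · right
    apply inv_Ob e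
    intro j
    by_cases hj : j = i
    · rw [hj]; exact h1
    · exact h0 j hj _

theorem built_all : ∀ (n : ℕ) (m : M), ∑ i, e m i = n → Built n (Ob.mk m) := by
  intro n
  induction n with
  | zero =>
    intro m hm0
    have h0 : m = 0 := by
      apply e.injective
      rw [map_zero]
      ext i
      exact (Finset.sum_eq_zero_iff.1 hm0) i (Finset.mem_univ i)
    subst h0
    exact Built.zero _ (Subtype.ext mor_zero_eq)
  | succ n ih =>
    intro m hmn
    have h0 : ∃ i, e m i ≠ 0 := by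
      by_contra hcon
      push Not at hcon
      rw [Finset.sum_eq_zero (fun i _ => hcon i)] at hmn
      omega
    obtain ⟨i, hi⟩ := h0
    obtain ⟨y, hy⟩ : ∃ y, y = e.symm (e m - Pi.single i 1) := ⟨_, rfl⟩
    have hm' : m = e.symm (Pi.single i 1) + y := by
      apply e.injective
      rw [hy, map_add, AddEquiv.apply_symm_apply, AddEquiv.apply_symm_apply]
      ext j
      rw [Pi.add_apply, Pi.sub_apply, Pi.single_apply]
      split_ifs with hj
      · subst hj; omega
      · omega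
    have hsum : ∑ j, e y j = n := by
      have h1 : ∑ j, e m j = ∑ j, (e (e.symm (Pi.single i 1)) j + e y j) := by
        conv_lhs => rw [hm']
        simp only [map_add, Pi.add_apply]
      rw [Finset.sum_add_distrib, AddEquiv.apply_symm_apply] at h1
      have h2 : ∑ j, (Pi.single i 1 : Fin N → ℕ) j = 1 := by
        simp [Pi.single_apply]
      rw [h2] at h1
      omega
    obtain ⟨i₁, i₂, o₁, o₂, hb⟩ := gbi (e.symm (Pi.single i 1)) y
    rw [hm']
    exact Built.succ n _ _ _ (loc_atom e i) i₁ i₂ o₁ o₂ hb (ih y hsum)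

end

end Pool.Agent.Y658.EX
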