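import Pool.Agent.Y658.EX.B3
import Pool.Agent.H494R3.VR.Defs

set_option autoImplicit false

/-!
Presentations of idempotent matrices over endomorphism rings.
-/

namespace Pool.Agent.Y658.EX

open CategoryTheory Pool.Agent.H494R3.EX
open Pool.Agent.H494R3.VR (Eqv Idem VV blk)

section
variable {𝒜 : Type} [Category.{0} 𝒜] [Preadditive 𝒜] {u : 𝒜}
  {ι κ μ : Type} [Fintype ι] [Fintype κ] [Fintype μ]

/-- the matrix with entries `y j ≫ x i` -/
def pm {r : 𝒜} (x : ι → (r ⟶ u)) (y : κ → (u ⟶ r)) : Matrix ι κ (End u) :=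
  Matrix.of fun i j => y j ≫ x i

omit [Fintype ι] [Fintype μ] in
theorem pm_mul {r : 𝒜} (x : ι → (r ⟶ u)) (y' : κ → (u ⟶ r)) (x' : κ → (r ⟶ u))
    (y : μ → (u ⟶ r)) (h : ∑ j, x' j ≫ y' j = 𝟙 r) : pm x y' * pm x' y = pm x y := by
  ext i k
  rw [Matrix.mul_apply]
  have h1 : (∑ j, (y k ≫ x' j) ≫ (y' j ≫ x i) : u ⟶ u) = y k ≫ x i := by
    calc (∑ j, (y k ≫ x' j) ≫ (y' j ≫ x i) : u ⟶ u) = y k ≫ (∑ j, x' j ≫ y' j) ≫ x i := by
          rw [Preadditive.sum_comp, Preadditive.comp_sum]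
          simp only [Category.assoc]
      _ = y k ≫ x i := by rw [h, Category.id_comp]
  exact h1

/-- `E` presents the object `r` -/
def Pres (E : Matrix ι ι (End u)) (r : 𝒜) : Prop :=
  ∃ (x : ι → (r ⟶ u)) (y : ι → (u ⟶ r)), E = pm x y ∧ ∑ i, x i ≫ y i = 𝟙 r

theorem Pres.idem {E : Matrix ι ι (End u)} {r : 𝒜} (h : Pres E r) : E * E = E := by
  obtain ⟨x, y, rfl, h2⟩ := h
  exact pm_mul x y x y h2

theorem Pres.eqv {E : Matrix ι ι (End u)} {F : Matrix κ κ (End u)} {r : 𝒜} (hE : Pres E r)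
    (hF : Pres F r) : Eqv E F := by
  obtain ⟨x, y, rfl, h2⟩ := hE
  obtain ⟨x', y', rfl, h2'⟩ := hF
  exact ⟨pm x y', pm x' y, pm_mul _ _ _ _ h2', pm_mul _ _ _ _ h2⟩

theorem Pres.retract {E : Matrix ι ι (End u)} {F : Matrix κ κ (End u)} {r s : 𝒜} (hE : Pres E r)
    (hF : Pres F s) (h : Eqv E F) : ∃ (α : r ⟶ s) (β : s ⟶ r), α ≫ β = 𝟙 r := by
  have hEE := hE.idem
  obtain ⟨x, y, hxy, h2⟩ := hE
  obtain ⟨x', y', hxy', h2'⟩ := hF
  obtain ⟨X, Y, hX, hY⟩ := h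
  have h3 : X * F * Y = E := by
    rw [← hY, Matrix.mul_assoc, Matrix.mul_assoc, ← Matrix.mul_assoc X, hX, hEE]
  have hx' : ∀ k l, y' k ≫ x' l = F l k := by
    intro k l; rw [hxy']; rfl
  have hx : ∀ i j, y i ≫ x j = E j i := by
    intro k l; rw [hxy]; rfl
  have h4 : ∀ i j, (∑ k, ∑ l, Y k i ≫ (y' k ≫ x' l) ≫ X j l : u ⟶ u) = y i ≫ x j := by
    intro i j
    rw [hx, ← h3, Matrix.mul_apply]
    refine Finset.sum_congr rfl (fun k _ => ?_)
    rw [Matrix.mul_apply]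
    show _ = (Y k i : u ⟶ u) ≫ (∑ l, X j l * F l k : End u)
    rw [Preadditive.comp_sum]
    refine Finset.sum_congr rfl (fun l _ => ?_)
    rw [hx']
    rfl
  refine ⟨∑ i, ∑ k, x i ≫ (Y k i : u ⟶ u) ≫ y' k, ∑ j, ∑ l, x' l ≫ (X j l : u ⟶ u) ≫ y j, ?_⟩
  calc (∑ i, ∑ k, x i ≫ (Y k i : u ⟶ u) ≫ y' k) ≫ (∑ j, ∑ l, x' l ≫ (X j l : u ⟶ u) ≫ y j) =
      ∑ i, ∑ j, x i ≫ (∑ k, ∑ l, Y k i ≫ (y' k ≫ x' l) ≫ X j l : u ⟶ u) ≫ y j := by
        rw [Preadditive.sum_comp]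
        refine Finset.sum_congr rfl (fun i _ => ?_)
        rw [Preadditive.comp_sum]
        refine Finset.sum_congr rfl (fun j _ => ?_)
        simp only [Preadditive.sum_comp, Preadditive.comp_sum, Category.assoc]
        exact Finset.sum_comm
    _ = ∑ i, ∑ j, (x i ≫ y i) ≫ (x j ≫ y j) := by
        refine Finset.sum_congr rfl (fun i _ => Finset.sum_congr rfl (fun j _ => ?_))
        rw [h4]
        simp only [Category.assoc]
    _ = (∑ i, x i ≫ y i) ≫ (∑ j, x j ≫ y j) := by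
        rw [Preadditive.sum_comp]
        simp only [Preadditive.comp_sum]
    _ = 𝟙 r := by rw [h2, Category.id_comp]

theorem Pres.sub {E : Matrix ι ι (End u)} {r : 𝒜} (h : Pres E r) (σ : κ ≃ ι) :
    Pres (E.submatrix σ σ) r := by
  obtain ⟨x, y, rfl, h2⟩ := h
  refine ⟨fun k => x (σ k), fun k => y (σ k), rfl, ?_⟩
  rw [← h2]
  exact Equiv.sum_comp σ (fun i => x i ≫ y i)

theorem Pres.blocks {E : Matrix ι ι (End u)} {F : Matrix κ κ (End u)} {r s z : 𝒜}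
    (hE : Pres E r) (hF : Pres F s) {i₁ : r ⟶ z} {i₂ : s ⟶ z} {o₁ : z ⟶ r} {o₂ : z ⟶ s}
    (hb : IsBi r s z i₁ i₂ o₁ o₂) : Pres (Matrix.fromBlocks E 0 0 F) z := by
  obtain ⟨x, y, rfl, h2⟩ := hE
  obtain ⟨x', y', rfl, h2'⟩ := hF
  refine ⟨Sum.elim (fun i => o₁ ≫ x i) (fun k => o₂ ≫ x' k),
    Sum.elim (fun i => y i ≫ i₁) (fun k => y' k ≫ i₂), ?_, ?_⟩
  · ext (i | i) (j | j)
    · show y j ≫ x i = (y j ≫ i₁) ≫ o₁ ≫ x i
      rw [Category.assoc, ← Category.assoc i₁, hb.h11, Category.id_comp]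
    · show (0 : u ⟶ u) = (y' j ≫ i₂) ≫ o₁ ≫ x i
      rw [Category.assoc, ← Category.assoc i₂, hb.h21, Limits.zero_comp, Limits.comp_zero]
    · show (0 : u ⟶ u) = (y j ≫ i₁) ≫ o₂ ≫ x' i
      rw [Category.assoc, ← Category.assoc i₁, hb.h12, Limits.zero_comp, Limits.comp_zero]
    · show y' j ≫ x' i = (y' j ≫ i₂) ≫ o₂ ≫ x' i
      rw [Category.assoc, ← Category.assoc i₂, hb.h22, Category.id_comp]
  · rw [Fintype.sum_sum_type]
    simp only [Sum.elim_inl, Sum.elim_inr]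
    calc ∑ i, (o₁ ≫ x i) ≫ y i ≫ i₁ + ∑ k, (o₂ ≫ x' k) ≫ y' k ≫ i₂ =
        o₁ ≫ (∑ i, x i ≫ y i) ≫ i₁ + o₂ ≫ (∑ k, x' k ≫ y' k) ≫ i₂ := by
          rw [Preadditive.sum_comp, Preadditive.comp_sum, Preadditive.sum_comp,
            Preadditive.comp_sum]
          simp only [Category.assoc]
      _ = 𝟙 z := by rw [h2, h2', Category.id_comp, Category.id_comp, hb.hs]

theorem Pres.empty {E : Matrix (Fin 0) (Fin 0) (End u)} {z : 𝒜} (h : 𝟙 z = 0) : Pres E z :=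
  ⟨fun i => i.elim0, fun i => i.elim0, by ext i; exact i.elim0, by rw [h]; simp⟩

/-- direct sum of `n` copies of `u` -/
structure NSum (n : ℕ) (u z : 𝒜) (i : Fin n → (u ⟶ z)) (o : Fin n → (z ⟶ u)) : Prop where
  he : ∀ j, i j ≫ o j = 𝟙 u
  hne : ∀ j k, j ≠ k → i j ≫ o k = 0
  hs : ∑ j, o j ≫ i j = 𝟙 z

section
variable {n : ℕ} {z : 𝒜} {i : Fin n → (u ⟶ z)} {o : Fin n → (z ⟶ u)}

theorem NSum.expand (h : NSum n u z i o) (f : z ⟶ z) :
    f = ∑ j, ∑ k, o j ≫ (i j ≫ f ≫ o k) ≫ i k := by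
  calc f = (∑ j, o j ≫ i j) ≫ f ≫ (∑ k, o k ≫ i k) := by
        rw [h.hs, Category.id_comp, Category.comp_id]
    _ = _ := by
        rw [Preadditive.sum_comp]
        apply Finset.sum_congr rfl
        intro j _
        rw [Preadditive.comp_sum, Preadditive.comp_sum]
        apply Finset.sum_congr rfl
        intro k _
        simp only [Category.assoc]

theorem NSum.ext (h : NSum n u z i o) {f g : z ⟶ z}
    (hfg : ∀ j k, i j ≫ f ≫ o k = i j ≫ g ≫ o k) : f = g := by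
  rw [h.expand f, h.expand g]
  simp only [hfg]

theorem NSum.tot (h : NSum n u z i o) (A : Fin n → Fin n → (u ⟶ u)) :
    ∃ f : z ⟶ z, ∀ j k, i j ≫ f ≫ o k = A k j := by
  refine ⟨∑ j, ∑ k, o j ≫ A k j ≫ i k, ?_⟩
  intro j k
  rw [Preadditive.sum_comp, Preadditive.comp_sum, Finset.sum_eq_single j]
  · rw [Preadditive.sum_comp, Preadditive.comp_sum, Finset.sum_eq_single k]
    · calc i j ≫ (o j ≫ A k j ≫ i k) ≫ o k = (i j ≫ o j) ≫ A k j ≫ (i k ≫ o k) := by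
            simp only [Category.assoc]
        _ = A k j := by rw [h.he, h.he, Category.id_comp, Category.comp_id]
    · intro l _ hl
      calc i j ≫ (o j ≫ A l j ≫ i l) ≫ o k = (i j ≫ o j) ≫ A l j ≫ (i l ≫ o k) := by
            simp only [Category.assoc]
        _ = 0 := by rw [h.hne l k hl, Limits.comp_zero, Limits.comp_zero]
    · intro hk; exact absurd (Finset.mem_univ k) hk
  · intro l _ hl
    rw [Preadditive.sum_comp, Preadditive.comp_sum]
    apply Finset.sum_eq_zero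
    intro p _
    calc i j ≫ (o l ≫ A p l ≫ i p) ≫ o k = (i j ≫ o l) ≫ A p l ≫ (i p ≫ o k) := by
          simp only [Category.assoc]
      _ = 0 := by rw [h.hne j l (Ne.symm hl), Limits.zero_comp]
  · intro hj; exact absurd (Finset.mem_univ j) hj

/-- a splitting of an endomorphism of `z` gives a presentation -/
theorem NSum.pres (h : NSum n u z i o) {r : 𝒜} (α : r ⟶ z) (β : z ⟶ r) (hαβ : α ≫ β = 𝟙 r) :
    Pres (pm (fun k => α ≫ o k) (fun j => i j ≫ β)) r := by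
  refine ⟨_, _, rfl, ?_⟩
  calc ∑ k, (α ≫ o k) ≫ i k ≫ β = α ≫ (∑ k, o k ≫ i k) ≫ β := by
        rw [Preadditive.sum_comp, Preadditive.comp_sum]
        simp only [Category.assoc]
    _ = 𝟙 r := by rw [h.hs, Category.id_comp, hαβ]

theorem NSum.pres_of_idem (h : NSum n u z i o)
    (hsplit : ∀ e : z ⟶ z, e ≫ e = e → ∃ (r : 𝒜) (α : r ⟶ z) (β : z ⟶ r),
      α ≫ β = 𝟙 r ∧ β ≫ α = e)
    (E : Matrix (Fin n) (Fin n) (End u)) (hE : E * E = E) : ∃ r : 𝒜, Pres E r := by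
  obtain ⟨e, he⟩ := h.tot (fun k j => E k j)
  have hee : e ≫ e = e := by
    apply h.ext
    intro j k
    have h1 : i j ≫ (e ≫ e) ≫ o k = ∑ l, (i j ≫ e ≫ o l) ≫ (i l ≫ e ≫ o k) := by
      calc i j ≫ (e ≫ e) ≫ o k = i j ≫ e ≫ (∑ l, o l ≫ i l) ≫ e ≫ o k := by
            rw [h.hs]; simp only [Category.assoc, Category.id_comp]
        _ = _ := by
            rw [Preadditive.sum_comp, Preadditive.comp_sum, Preadditive.comp_sum]
            simp only [Category.assoc]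
    rw [h1, he j k]
    simp only [he]
    have h2 := congrFun (congrFun hE k) j
    rw [Matrix.mul_apply] at h2
    exact h2
  obtain ⟨r, α, β, h1, h2⟩ := hsplit e hee
  refine ⟨r, ?_⟩
  have h3 := h.pres α β h1
  have h4 : E = pm (fun k => α ≫ o k) (fun j => i j ≫ β) := by
    ext k j
    show (E k j : u ⟶ u) = (i j ≫ β) ≫ α ≫ o k
    rw [← he j k, ← h2]
    simp only [Category.assoc]
  rw [h4]
  exact h3

end

end

/-! ### the concrete category -/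

variable [Bs] {M : Type} [AddCommMonoid M]

theorem nsum_ex (u : M) : ∀ n : ℕ, ∃ (i : Fin n → (Ob.mk u ⟶ Ob.mk (n • u)))
    (o : Fin n → (Ob.mk (n • u) ⟶ Ob.mk u)), NSum n (Ob.mk u) (Ob.mk (n • u)) i o := by
  intro n
  induction n with
  | zero =>
    rw [zero_nsmul]
    refine ⟨fun i => i.elim0, fun i => i.elim0, fun i => i.elim0, fun i => i.elim0, ?_⟩
    exact Subtype.ext mor_zero_eq
  | succ n ih =>
    obtain ⟨i, o, h⟩ := ih
    rw [succ_nsmul']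
    obtain ⟨i₁, i₂, o₁, o₂, hb⟩ := gbi u (n • u)
    refine ⟨Fin.cons (α := fun _ => (Ob.mk u ⟶ Ob.mk (u + n • u))) i₁ (fun k => i k ≫ i₂),
      Fin.cons (α := fun _ => (Ob.mk (u + n • u) ⟶ Ob.mk u)) o₁ (fun k => o₂ ≫ o k), ?_, ?_, ?_⟩
    · intro j
      refine Fin.cases ?_ (fun j => ?_) j
      · exact hb.h11
      · simp only [Fin.cons_succ]
        rw [Category.assoc, ← Category.assoc i₂, hb.h22, Category.id_comp, h.he]
    · intro j k
      refine Fin.cases ?_ (fun j => ?_) j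
      · refine Fin.cases ?_ (fun k => ?_) k
        · intro h0; exact absurd rfl h0
        · intro _
          simp only [Fin.cons_succ, Fin.cons_zero]
          rw [← Category.assoc, hb.h12, Limits.zero_comp]
      · refine Fin.cases ?_ (fun k => ?_) k
        · intro _
          simp only [Fin.cons_succ, Fin.cons_zero]
          rw [Category.assoc, hb.h21, Limits.comp_zero]
        · intro hjk
          simp only [Fin.cons_succ]
          rw [Category.assoc, ← Category.assoc i₂, hb.h22, Category.id_comp,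
            h.hne j k (fun h0 => hjk (by rw [h0]))]
    · rw [Fin.sum_univ_succ]
      simp only [Fin.cons_succ, Fin.cons_zero]
      have : ∑ k, (o₂ ≫ o k) ≫ i k ≫ i₂ = o₂ ≫ (∑ k, o k ≫ i k) ≫ i₂ := by
        rw [Preadditive.sum_comp, Preadditive.comp_sum]
        simp only [Category.assoc]
      rw [this, h.hs, Category.id_comp, hb.hs]

/-- the ring -/
abbrev Rg (M : Type) [AddCommMonoid M] (u : M) : Type := End (Ob.mk u : Ob M)

/-- evaluation of morphisms -/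
noncomputable def vl (w : M →+ ℕ) {x y : Ob M} :
    (x ⟶ y) →+ Matrix (Fin (w y.m)) (Fin (w x.m)) (Fl M) where
  toFun f := f.1 w
  map_zero' := rfl
  map_add' _ _ := rfl

theorem vl_comp (w : M →+ ℕ) {x y z : Ob M} (f : x ⟶ y) (g : y ⟶ z) :
    vl w (f ≫ g) = vl w g * vl w f := rfl

theorem vl_id (w : M →+ ℕ) (x : Ob M) : vl w (𝟙 x) = 1 := rfl

theorem le_of_vl (w : M →+ ℕ) {x y : Ob M} (α : x ⟶ y) (β : y ⟶ x) (h : α ≫ β = 𝟙 x) :
    w x.m ≤ w y.m := by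
  have h1 : vl w β * vl w α = 1 := by rw [← vl_comp, h, vl_id]
  have h2 := Matrix.rank_mul_le_left (vl w β) (vl w α)
  rw [h1, Matrix.rank_one, Fintype.card_fin] at h2
  exact h2.trans (Matrix.rank_le_width _)

theorem pres_unique {u r s : M} {ι κ : Type} [Fintype ι] [Fintype κ] {E : Matrix ι ι (Rg M u)}
    {F : Matrix κ κ (Rg M u)} (hE : Pres E (Ob.mk r)) (hF : Pres F (Ob.mk s)) (h : Eqv E F)
    (w : M →+ ℕ) : w r = w s := by
  apply le_antisymm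
  · obtain ⟨α, β, hαβ⟩ := hE.retract hF h
    exact le_of_vl w α β hαβ
  · obtain ⟨X, Y, h1, h2⟩ := h
    obtain ⟨α, β, hαβ⟩ := hF.retract hE ⟨Y, X, h2, h1⟩
    exact le_of_vl w α β hαβ

theorem exch_end {𝒜 : Type} [Category.{0} 𝒜] [Preadditive 𝒜] {z : 𝒜} {n : ℕ} (hz : Built n z)
    (x : z ⟶ z) : ∃ p : z ⟶ z, p ≫ p = p ∧ (∃ s', p = s' ≫ x) ∧
      ∃ t', 𝟙 z - p = t' ≫ (𝟙 z - x) :=
  exch n z hz z z x (𝟙 z - x) (𝟙 z) (𝟙 z) (by rw [Category.id_comp, Category.id_comp]; abel)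

/-- the exchange condition -/
theorem rg_exch {N : ℕ} (e : M ≃+ (Fin N → ℕ)) (u : M) (x : Rg M u) :
    ∃ p r s : Rg M u, p * p = p ∧ p = x * r ∧ p = s + x - x * s := by
  obtain ⟨p, hp, ⟨s', hs'⟩, ⟨t', ht'⟩⟩ : ∃ p : Rg M u, p * p = p ∧
      (∃ s' : Rg M u, p = x * s') ∧ ∃ t' : Rg M u, 1 - p = (1 - x) * t' := by
    obtain ⟨p, hp, ⟨s', hs'⟩, ⟨t', ht'⟩⟩ := exch_end (built_all e _ u rfl) x
    exact ⟨p, hp, ⟨s', hs'⟩, ⟨t', ht'⟩⟩
  refine ⟨p, s', 1 - t', hp, hs', ?_⟩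
  have h2 : p = 1 - (1 - x) * t' := by rw [← ht']; abel
  rw [h2]
  noncomm_ring

end Pool.Agent.Y658.EX
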