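import Pool.Agent.Y658.EX.B5
import Pool.Agent.H494R3.EX.Defs
import Pool.Agent.Y658.VR.Fun

set_option autoImplicit false

/-!
The functor from simplicial monoids with order-unit and normalized embeddings to unital exchange
algebras over an arbitrary field, and the natural isomorphism.
-/

namespace Pool.Agent.Y658.EX

open CategoryTheory Pool.Agent.H494R3.EX
open Pool.Agent.H494R3.VR (VV Idem Eqv)
open Pool.Agent.Y658.VR (UMon UHom UV UVm V1 onI)

/-! ### the algebra structure -/

section
variable [Bs] {M : Type} [AddCommMonoid M] (u : M)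

noncomputable instance smRg : SMul Bs.K (Rg M u) :=
  ⟨fun c a => (⟨c • a.1, D.smul c a.2⟩ : DS u u)⟩

noncomputable def incR : Rg M u →+ Mor u u where
  toFun a := a.1
  map_zero' := rfl
  map_add' _ _ := rfl

noncomputable instance mRg : Module Bs.K (Rg M u) :=
  Function.Injective.module Bs.K (incR u) Subtype.val_injective (fun _ _ => rfl)

noncomputable instance aRg : Algebra Bs.K (Rg M u) :=
  Algebra.ofModule (fun c a b => Subtype.ext (smul_cp c a.1 b.1))
    (fun c a b => Subtype.ext (cp_smul c a.1 b.1))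

end

/-- a simplicial monoid is conical -/
theorem conical {M : Type} [AddCommMonoid M] (h : ∃ n : ℕ, Nonempty (M ≃+ (Fin n → ℕ)))
    (x y : M) (hxy : x + y = 0) : x = 0 ∧ y = 0 := by
  obtain ⟨n, ⟨e⟩⟩ := h
  have h1 : e x + e y = 0 := by rw [← map_add, hxy, map_zero]
  have h2 : ∀ i, e x i = 0 ∧ e y i = 0 := by
    intro i
    have := congrFun h1 i
    rw [Pi.add_apply, Pi.zero_apply] at this
    omega
  constructor
  · apply e.injective
    rw [map_zero]
    funext i
    exact (h2 i).1
  · apply e.injective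
    rw [map_zero]
    funext i
    exact (h2 i).2

theorem order {M : Type} [AddCommMonoid M] {u : M} (h : ∀ x : M, ∃ (y : M) (n : ℕ), x + y = n • u)
    (x : M) : ∃ (n : ℕ) (z : M), x + z = n • u := by
  obtain ⟨y, n, hy⟩ := h x
  exact ⟨n, y, hy⟩

/-- a simplicial monoid as a conical commutative monoid with an order-unit -/
def toU (M : Simp) : UMon := ⟨M.carrier, M.str, conical M.simplicial, M.unit, order M.orderUnit⟩

/-- a normalized embedding as a homomorphism which preserves the order-unit -/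
def mapU {M N : Simp} (f : Emb M N) : UHom (toU M) (toU N) := ⟨f.f, f.unit⟩

/-- The inclusion functor of simplicial monoids with order-unit and normalized embeddings into
conical commutative monoids with order-unit and all homomorphisms preserving the order-unit. -/
def inclU : Simp ⥤ UMon where
  obj := toU
  map f := mapU f

section
variable [Bs]

noncomputable def rma {M M' : Type} [AddCommMonoid M] [AddCommMonoid M'] (f : M →+ M')
    (hf : Function.Injective f) {u : M} {u' : M'} (h : f u = u') : Rg M u →ₐ[Bs.K] Rg M' u' :=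
  AlgHom.ofLinearMap
    { toFun := rmp f hf h
      map_add' := fun a b => map_add (rmp f hf h) a b
      map_smul' := fun c a => Subtype.ext (Cmap_smul f hf h h c a.1) }
    (Subtype.ext (Cmap_one f hf h))
    (fun a b => map_mul (rmp f hf h) a b)

/-- the functor -/
noncomputable def Psi : Simp ⥤ AlgCat.{0} Bs.K where
  obj M := AlgCat.of Bs.K (Rg M.carrier M.unit)
  map {M N} f := AlgCat.ofHom (rma (Emb.f f) (Emb.inj f) (Emb.unit f))
  map_id M := by
    apply AlgCat.hom_ext
    apply AlgHom.ext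
    intro a
    exact rmp_id Function.injective_id rfl a
  map_comp {M M' M''} f g := by
    apply AlgCat.hom_ext
    apply AlgHom.ext
    intro a
    exact rmp_comp f.f f.inj g.f g.inj (f ≫ g).inj f.unit g.unit (f ≫ g).unit a

theorem Psi_exch (M : Simp) : IsExchange (Psi.obj M) := by
  obtain ⟨N, ⟨e⟩⟩ := M.simplicial
  exact rg_exch e M.unit

theorem eta_bij (M : Simp) : Function.Bijective (eta M.orderUnit) := by
  obtain ⟨N, ⟨e⟩⟩ := M.simplicial
  exact ⟨eta_inj M.orderUnit e, eta_surj M.orderUnit e⟩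

noncomputable def etaEquiv (M : Simp) : M.carrier ≃+ VV (Rg M.carrier M.unit) :=
  AddEquiv.ofBijective (eta M.orderUnit) (eta_bij M)

theorem pres_one {M : Type} [AddCommMonoid M] (u : M) :
    Pres (onI (Rg M u) 1).mat (Ob.mk u) := by
  refine ⟨fun _ => 𝟙 _, fun _ => 𝟙 _, ?_, ?_⟩
  · ext i j
    have h : i = j := Subsingleton.elim (α := Fin 1) i j
    subst h
    have h1 : (onI (Rg M u) 1).mat i i = 1 := Matrix.one_apply_eq i
    rw [h1]
    exact (Category.id_comp (𝟙 (Ob.mk u))).symm
  · exact (Fin.sum_univ_one (fun _ : Fin 1 => 𝟙 (Ob.mk u) ≫ 𝟙 (Ob.mk u))).trans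
      (Category.id_comp _)

theorem eta_one (M : Simp) :
    etaEquiv M M.unit = VV.mk (onI (Rg M.carrier M.unit) 1) :=
  eta_eq M.orderUnit (pres_one M.unit)

noncomputable def etaIso (M : Simp) : inclU.obj M ≅ (Psi ⋙ V1 Bs.K).obj M where
  hom := ⟨(etaEquiv M).toAddMonoidHom, eta_one M⟩
  inv := ⟨(etaEquiv M).symm.toAddMonoidHom, by
    show (etaEquiv M).symm (VV.mk (onI (Rg M.carrier M.unit) 1)) = M.unit
    exact (AddEquiv.symm_apply_eq _).2 (eta_one M).symm⟩
  hom_inv_id := by
    apply UHom.ext'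
    intro x
    exact (etaEquiv M).symm_apply_apply x
  inv_hom_id := by
    apply UHom.ext'
    intro x
    exact (etaEquiv M).apply_symm_apply x

theorem nat {M M' : Simp} (f : Emb M M') (m : M.carrier) :
    VV.map (rma f.f f.inj f.unit).toRingHom.toNonUnitalRingHom (eta M.orderUnit m) =
      eta M'.orderUnit (f.f m) := by
  rw [← eta_nat f.f f.inj f.unit M.orderUnit M'.orderUnit m]
  generalize eta M.orderUnit m = z
  obtain ⟨E⟩ := z
  rfl

noncomputable def mainIso : Psi ⋙ V1 Bs.K ≅ inclU :=
  (NatIso.ofComponents (F := inclU) (G := Psi ⋙ V1 Bs.K) etaIso (by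
    intro M M' f
    apply UHom.ext'
    intro m
    exact (nat f m).symm)).symm

end

/-! ### forgetting the units and the scalars -/

section
variable {K : Type} [Field K]

/-- A homomorphism of unital `K`-algebras as a homomorphism of rings. -/
def nuh {A B : AlgCat.{0} K} (f : A ⟶ B) : A →ₙ+* B := f.hom.toRingHom.toNonUnitalRingHom

theorem nuh_id (A : AlgCat.{0} K) : nuh (𝟙 A) = NonUnitalRingHom.id A := rfl

theorem nuh_comp {A B C : AlgCat.{0} K} (f : A ⟶ B) (g : B ⟶ C) :
    nuh (f ≫ g) = NonUnitalRingHom.comp (nuh g) (nuh f) := rfl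

/-- A functor to unital `K`-algebras whose values are exchange rings, as a functor to exchange
rings. -/
def forgetE (Ψ : Simp ⥤ AlgCat.{0} K) (h : ∀ M : Simp, IsExchange (Ψ.obj M)) : Simp ⥤ Exch where
  obj M := ⟨Ψ.obj M, inferInstance, h M⟩
  map f := nuh (Ψ.map f)
  map_id M := by rw [Ψ.map_id]; rfl
  map_comp f g := by rw [Ψ.map_comp]; rfl

/-- forgetting the order-units in the isomorphism -/
noncomputable def isoForget (Ψ : Simp ⥤ AlgCat.{0} K) (h : ∀ M : Simp, IsExchange (Ψ.obj M))
    (i : Ψ ⋙ V1 K ≅ inclU) : forgetE Ψ h ⋙ V ≅ incl :=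
  NatIso.ofComponents (F := forgetE Ψ h ⋙ V) (G := incl)
    (fun M =>
      { hom := UHom.hom (i.hom.app M)
        inv := UHom.hom (i.inv.app M)
        hom_inv_id := congrArg UHom.hom (i.hom_inv_id_app M)
        inv_hom_id := congrArg UHom.hom (i.inv_hom_id_app M) })
    (fun {M M'} f => congrArg UHom.hom (i.hom.naturality f))

end

theorem main (K : Type) [Field K] : ∃ (Ψ : Simp ⥤ AlgCat.{0} K)
    (h : ∀ M : Simp, IsExchange (Ψ.obj M)),
    Nonempty (Ψ ⋙ V1 K ≅ inclU) ∧ Nonempty (forgetE Ψ h ⋙ V ≅ incl) :=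
  letI : Bs := ⟨K⟩
  ⟨Psi, Psi_exch, ⟨mainIso⟩, ⟨isoForget Psi Psi_exch mainIso⟩⟩

end Pool.Agent.Y658.EX
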